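import Mathlib

namespace Pool.Agent.Results.MP_230f06_co.Full

open SimpleGraph

/-- a veto interval representation: vertex `a` gets the interval `[l a, r a]` with mark `v a` -/
structure Rep {V : Type} (G : SimpleGraph V) where
  l : V → ℝ
  v : V → ℝ
  r : V → ℝ
  lv : ∀ a, l a < v a
  vr : ∀ a, v a < r a
  inj : ∀ a b, l a = l b → v a = v b → r a = r b → a = b
  adj : ∀ a b, a ≠ b → (G.Adj a b ↔
    (v a < l b ∧ l b < r a ∧ r a < v b) ∨ (v b < l a ∧ l a < r b ∧ r b < v a))

variable {V : Type} {G : SimpleGraph V}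

def Rep.IsUnit (R : Rep G) : Prop := ∀ a b, R.r a - R.l a = R.r b - R.l b

def Rep.IsProper (R : Rep G) : Prop :=
  ∀ a b, ¬ Set.Icc (R.l b) (R.r b) ⊂ Set.Icc (R.l a) (R.r a)

def Rep.IsMid (R : Rep G) : Prop := ∀ a, R.v a = (R.l a + R.r a) / 2

def S (R : Rep G) : ℕ → V → Prop
  | 0, _ => True
  | n + 1, b => ∃ a, S R n a ∧ R.v a < R.l b ∧ R.r a < R.v b

theorem mono_col [Finite V] (R : Rep G)
    (h : ∀ a b, R.l a ≤ R.l b → R.v a ≤ R.v b ∧ R.r a ≤ R.r b) : G.Colorable 3 := by
  classical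
  have := Fintype.ofFinite V
  have up : ∀ n b c, S R n b → R.l b ≤ R.l c → S R n c := by
    intro n b c hb hl
    cases n with
    | zero => trivial
    | succ n =>
      obtain ⟨a, h1, h2, h3⟩ := hb
      exact ⟨a, h1, by linarith, by have := (h b c hl).1; linarith⟩
  have down : ∀ n b, S R (n + 1) b → S R n b := by
    rintro n b ⟨a, h1, h2, -⟩
    exact up n a b h1 (by have := R.lv a; linarith)
  have down' : ∀ m n b, S R (n + m) b → S R n b := by
    intro m
    induction m with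
    | zero => exact fun n b h => h
    | succ m ih => exact fun n b h => ih n b (down _ b h)
  have bd : ∀ n b, S R n b → n ≤ (Finset.univ.filter fun x => R.l x < R.l b).card := by
    intro n
    induction n with
    | zero => intro b _; omega
    | succ n ih =>
      rintro b ⟨a, h1, h2, -⟩
      have hab : R.l a < R.l b := by have := R.lv a; linarith
      have : (Finset.univ.filter fun x => R.l x < R.l a) ⊂
          (Finset.univ.filter fun x => R.l x < R.l b) := by
        refine (Finset.ssubset_iff_of_subset ?_).2 ⟨a, by simpa using hab, by simp⟩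
        intro x hx
        simp only [Finset.mem_filter, Finset.mem_univ, true_and] at hx ⊢
        linarith
      have := Finset.card_lt_card this
      have := ih a h1
      omega
  have ex : ∀ b, ∃ n, ¬ S R n b := fun b =>
    ⟨(Finset.univ.filter fun x => R.l x < R.l b).card + 1, fun h => by have := bd _ _ h; omega⟩
  let k : V → ℕ := fun b => Nat.find (ex b)
  have k1 : ∀ b n, S R n b ↔ n < k b := by
    intro b n
    constructor
    · intro hs
      by_contra hn
      obtain ⟨m, hm⟩ : ∃ m, n = k b + m := ⟨n - k b, by omega⟩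
      exact Nat.find_spec (ex b) (down' m _ b (hm ▸ hs))
    · intro hn
      exact not_not.1 (Nat.find_min (ex b) hn)
  have key : ∀ a b, R.v a < R.l b → R.l b < R.r a → R.r a < R.v b → k a % 3 ≠ k b % 3 := by
    intro a b h1 h2 h3
    have p0 : 0 < k a := (k1 a 0).1 trivial
    have p1 : k a - 1 + 1 < k b := (k1 b _).1 ⟨a, (k1 a _).2 (by omega), h1, h3⟩
    have p2 : ¬ k a + 2 < k b := by
      intro hh
      obtain ⟨z, ⟨y, y1, y2, y3⟩, z2, z3⟩ := (k1 b _).2 hh
      rcases le_total (R.l y) (R.l a) with q | q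
      · have := (k1 a _).1 (up _ y a y1 q)
        omega
      · have := (h a y q).2
        linarith
    omega
  exact ⟨Coloring.mk (fun a => (⟨k a % 3, Nat.mod_lt _ (by omega)⟩ : Fin 3)) fun {a b} hab e => by
    have e' : k a % 3 = k b % 3 := congrArg Fin.val e
    rcases (R.adj a b hab.ne).1 hab with h | h
    · exact key a b h.1 h.2.1 h.2.2 e'
    · exact key b a h.1 h.2.1 h.2.2 e'.symm⟩

theorem mp_col [Finite V] (R : Rep G) (hm : R.IsMid) (hp : R.IsProper) : G.Colorable 3 := by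
  apply mono_col R
  intro a b hl
  have hr : R.r a ≤ R.r b := by
    by_contra hr
    push Not at hr
    apply hp a b
    refine ⟨Set.Icc_subset_Icc hl hr.le, fun hs => ?_⟩
    have ha : R.l a ≤ R.r a := by have := R.lv a; have := R.vr a; linarith
    have := (hs ⟨ha, le_rfl⟩).2
    linarith
  exact ⟨by rw [hm a, hm b]; linarith, hr⟩

def adjD (p q : ℕ × ℕ) : Bool :=
  (Nat.blt p.2 q.1 && Nat.blt q.1 (p.1 + 10) && Nat.blt (p.1 + 10) q.2) ||
  (Nat.blt q.2 p.1 && Nat.blt p.1 (q.1 + 10) && Nat.blt (q.1 + 10) p.2)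

theorem adjD_iff (p q : ℕ × ℕ) : adjD p q = true ↔
    (p.2 < q.1 ∧ q.1 < p.1 + 10 ∧ p.1 + 10 < q.2) ∨ (q.2 < p.1 ∧ p.1 < q.1 + 10 ∧ q.1 + 10 < p.2) := by
  simp only [adjD, Bool.or_eq_true, Bool.and_eq_true, Nat.blt_eq, and_assoc]

def GD (d : List (ℕ × ℕ)) : SimpleGraph {p // p ∈ d} where
  Adj p q := adjD p.1 q.1 = true
  symm := ⟨fun p q h => by rw [adjD_iff] at h ⊢; tauto⟩
  loopless := ⟨fun p h => by rw [adjD_iff] at h; omega⟩

def RD (d : List (ℕ × ℕ)) (h : ∀ p ∈ d, p.1 < p.2 ∧ p.2 < p.1 + 10) : Rep (GD d) where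
  l p := p.1.1
  v p := p.1.2
  r p := p.1.1 + 10
  lv p := by exact_mod_cast (h _ p.2).1
  vr p := by exact_mod_cast (h _ p.2).2
  inj p q h1 h2 _ := Subtype.ext (Prod.ext (by exact_mod_cast h1) (by exact_mod_cast h2))
  adj p q _ := by
    refine (adjD_iff p.1 q.1).trans ?_
    norm_cast

def srch (k : ℕ) : List (ℕ × ℕ) → List ((ℕ × ℕ) × ℕ) → Bool
  | [], _ => true
  | p :: rem, done => (List.range k).any fun c =>
      (done.all fun x => !(x.2 == c && adjD x.1 p)) && srch k rem ((p, c) :: done)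

theorem srch_sound (k : ℕ) (d : List (ℕ × ℕ)) (c : ℕ × ℕ → ℕ) (hc : ∀ p ∈ d, c p < k)
    (hp : ∀ p ∈ d, ∀ q ∈ d, adjD p q = true → c p ≠ c q) :
    ∀ (rem : List (ℕ × ℕ)) (done : List ((ℕ × ℕ) × ℕ)), (∀ p ∈ rem, p ∈ d) →
      (∀ x ∈ done, x.1 ∈ d ∧ x.2 = c x.1) → srch k rem done = true := by
  intro rem
  induction rem with
  | nil => intro _ _ _; rfl
  | cons p rem ih =>
    intro done h1 h2
    have hpd := h1 p (by simp)
    simp only [srch, List.any_eq_true, List.mem_range, Bool.and_eq_true, List.all_eq_true]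
    refine ⟨c p, hc p hpd, ?_, ih _ (fun q hq => h1 q (by simp [hq])) ?_⟩
    · intro x hx
      obtain ⟨a, b⟩ := h2 x hx
      by_cases e : adjD x.1 p = true
      · have := hp _ a _ hpd e
        simp [b, this]
      · simp [e]
    · intro x hx
      rcases List.mem_cons.1 hx with rfl | hx
      · exact ⟨hpd, rfl⟩
      · exact h2 x hx

theorem not_col (k : ℕ) (d : List (ℕ × ℕ)) (h : srch k d [] = false) : ¬ (GD d).Colorable k := by
  classical
  rintro ⟨C⟩
  have := srch_sound k d (fun p => if h : p ∈ d then (C ⟨p, h⟩).val else 0)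
    (fun p hp => by simp [hp])
    (fun p hp q hq e => by
      simp only [hp, hq, dif_pos]
      exact fun e' => C.valid (v := ⟨p, hp⟩) (w := ⟨q, hq⟩) e (Fin.ext e'))
    d [] (fun _ h => h) (by simp)
  rw [h] at this
  exact Bool.noConfusion this

def d4 : List (ℕ × ℕ) :=
  [(4, 6), (13, 15), (4, 12), (9, 18), (0, 2), (7, 15), (16, 24), (7, 8), (13, 21), (9, 11),
   (16, 18), (19, 27), (10, 11), (1, 2), (10, 19), (8, 9), (17, 26), (12, 14), (3, 11), (12, 20),
   (15, 23), (15, 16), (24, 32), (21, 23), (18, 27), (16, 17), (25, 34), (22, 24), (13, 22),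
   (11, 12), (20, 29), (18, 19), (27, 35), (24, 26)]

theorem RD_unit (d : List (ℕ × ℕ)) (h : ∀ p ∈ d, p.1 < p.2 ∧ p.2 < p.1 + 10) :
    (RD d h).IsUnit := fun a b => by simp [RD]

theorem result : ∃ (V : Type) (_ : Finite V) (G : SimpleGraph V),
    (∃ R : Rep G, R.IsUnit) ∧ ¬ ∃ R : Rep G, R.IsMid ∧ R.IsProper :=
  ⟨_, inferInstance, GD d4, ⟨RD d4 (by decide), RD_unit _ _⟩,
    fun ⟨R, h1, h2⟩ => not_col 3 d4 (by decide +kernel) (mp_col R h1 h2)⟩

end Pool.Agent.Results.MP_230f06_co.Full
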